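import Pool.Agent.Q120.FZ.Stm
import Mathlib.NumberTheory.LSeries.RiemannZeta
import Mathlib.NumberTheory.LSeries.Dirichlet
import Mathlib.NumberTheory.SumPrimeReciprocals

/-!
# Project FZ, job POLE: the pole at `β`
-/

set_option autoImplicit false

namespace Pool.Agent.Q146.FZ

open Finset MeasureTheory Filter Pool.Agent.Q120.ET Pool.Agent.Q120.GM Pool.Agent.Q120.TT
  Pool.Agent.Q120.FZ
open scoped Topology

lemma abs_sg_le (S : Set ℕ) (p : ℕ) : |sg S p| ≤ 1 := by
  unfold sg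
  split_ifs <;> simp

lemma dd_nonneg (β : ℝ) (n : ℕ) : 0 ≤ dd β n := by
  unfold dd
  split_ifs
  · positivity
  · exact le_rfl

lemma dd_le_one {β : ℝ} (hβ : β < 1) (n : ℕ) : dd β n ≤ 1 := by
  unfold dd
  split_ifs with h
  · refine Real.rpow_le_one_of_one_le_of_nonpos ?_ (by linarith)
    exact_mod_cast h.one_le
  · exact zero_le_one

open Classical in
/-- the coefficients -/
noncomputable def aa (S : Set ℕ) (β : ℝ) (n : ℕ) : ℂ :=
  if n.Prime then (((sg S n - dd β n) / 2 : ℝ) : ℂ) else 0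

lemma norm_aa (S : Set ℕ) {β : ℝ} (hβ : β < 1) (n : ℕ) : ‖aa S β n‖ ≤ 1 := by
  unfold aa
  split_ifs with h
  · rw [Complex.norm_real, Real.norm_eq_abs, abs_le]
    have h1 := abs_le.1 (abs_sg_le S n)
    have h2 := dd_nonneg β n
    have h3 := dd_le_one hβ n
    constructor <;> linarith [h1.1, h1.2]
  · simp

/-- decomposition of the primes up to `x` into blocks -/
lemma sum_blocks (g : ℕ → ℝ) (x : ℕ) :
    ∑ p ∈ (Icc 1 x).filter Nat.Prime, g p =
      ∑ k ∈ range (Nat.log 2 x + 1), ∑ p ∈ (pb k).filter (fun p => p ≤ x), g p := by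
  classical
  rw [← Finset.sum_biUnion]
  · congr 1
    ext p
    simp only [mem_filter, mem_Icc, mem_biUnion, mem_range, pb, block, mem_Ico]
    constructor
    · rintro ⟨⟨h1, h2⟩, h3⟩
      refine ⟨Nat.log 2 p, ?_, ⟨⟨?_, ?_⟩, h3⟩, h2⟩
      · have := Nat.log_mono_right (b := 2) h2
        omega
      · exact Nat.pow_log_le_self 2 (by omega)
      · exact Nat.lt_pow_succ_log_self (by norm_num) p
    · rintro ⟨k, hk, ⟨⟨h1, h2⟩, h3⟩, h4⟩
      exact ⟨⟨h3.one_le, h4⟩, h3⟩
  · intro i _ j _ hij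
    rw [Function.onFun, Finset.disjoint_left]
    intro p hp hp'
    simp only [mem_filter, pb, block, mem_Ico] at hp hp'
    apply hij
    have e1 : Nat.log 2 p = i := (Nat.log_eq_iff (Or.inr ⟨by norm_num, by
      have := hp.1.2.pos; omega⟩)).2 ⟨hp.1.1.1, hp.1.1.2⟩
    have e2 : Nat.log 2 p = j := (Nat.log_eq_iff (Or.inr ⟨by norm_num, by
      have := hp.1.2.pos; omega⟩)).2 ⟨hp'.1.1.1, hp'.1.1.2⟩
    omega

lemma norm_sum_aa (S : Set ℕ) (β : ℝ)
    (hdev : ∀ ε : ℝ, 0 < ε → ∃ C : ℝ, ∀ k x : ℕ,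
      |∑ p ∈ (pb k).filter (fun p => p ≤ x), (sg S p - dd β p)| ≤ C * (2 : ℝ) ^ ((1 / 2 + ε) * k)) :
    ∀ ε : ℝ, 0 < ε → ∃ C : ℝ, ∀ x : ℕ, 1 ≤ x →
      ‖∑ n ∈ Icc 1 x, aa S β n‖ ≤ C * (x : ℝ) ^ (1 / 2 + ε) := by
  intro ε hε
  obtain ⟨C, hC⟩ := hdev ε hε
  set q : ℝ := (2 : ℝ) ^ (1 / 2 + ε) with hq
  have hq1 : 1 < q := Real.one_lt_rpow (by norm_num) (by linarith)
  have hC0 : 0 ≤ C := by
    have h := hC 0 0
    simp only [Nat.cast_zero, mul_zero, Real.rpow_zero, mul_one] at h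
    exact (abs_nonneg _).trans h
  refine ⟨C * (q / (q - 1)), fun x hx => ?_⟩
  have e1 : ∑ n ∈ Icc 1 x, aa S β n =
      (((∑ p ∈ (Icc 1 x).filter Nat.Prime, (sg S p - dd β p)) / 2 : ℝ) : ℂ) := by
    classical
    rw [Finset.sum_filter, Finset.sum_div]
    push_cast
    refine Finset.sum_congr rfl fun n _ => ?_
    unfold aa
    split_ifs
    · push_cast
      ring
    · simp
  rw [e1, Complex.norm_real, Real.norm_eq_abs, sum_blocks, abs_div, abs_of_pos (by norm_num : (0 : ℝ) < 2)]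
  have e2 : |∑ k ∈ range (Nat.log 2 x + 1), ∑ p ∈ (pb k).filter (fun p => p ≤ x), (sg S p - dd β p)| ≤
      ∑ k ∈ range (Nat.log 2 x + 1), C * q ^ k := by
    refine (Finset.abs_sum_le_sum_abs _ _).trans (Finset.sum_le_sum fun k _ => ?_)
    refine (hC k x).trans_eq ?_
    rw [hq, ← Real.rpow_natCast, ← Real.rpow_mul (by norm_num)]
  have e3 : ∑ k ∈ range (Nat.log 2 x + 1), C * q ^ k ≤ C * (q / (q - 1)) * (x : ℝ) ^ (1 / 2 + ε) := by
    rw [← Finset.mul_sum, geom_sum_eq hq1.ne']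
    have h1 : (2 : ℝ) ^ (Nat.log 2 x) ≤ x := by
      exact_mod_cast Nat.pow_log_le_self 2 (by omega)
    have h2 : q ^ (Nat.log 2 x) ≤ (x : ℝ) ^ (1 / 2 + ε) := by
      have : q ^ (Nat.log 2 x) = ((2 : ℝ) ^ (Nat.log 2 x)) ^ (1 / 2 + ε) := by
        rw [hq, ← Real.rpow_natCast, ← Real.rpow_mul (by norm_num), ← Real.rpow_natCast,
          ← Real.rpow_mul (by norm_num)]
        congr 1
        ring
      rw [this]
      exact Real.rpow_le_rpow (by positivity) h1 (by linarith)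
    have h3 : (q ^ (Nat.log 2 x + 1) - 1) / (q - 1) ≤ q / (q - 1) * (x : ℝ) ^ (1 / 2 + ε) := by
      rw [div_mul_eq_mul_div]
      refine div_le_div_of_nonneg_right ?_ (by linarith)
      rw [pow_succ]
      nlinarith
    calc C * ((q ^ (Nat.log 2 x + 1) - 1) / (q - 1))
        ≤ C * (q / (q - 1) * (x : ℝ) ^ (1 / 2 + ε)) := mul_le_mul_of_nonneg_left h3 hC0
      _ = _ := by ring
  have e4 : 0 ≤ |∑ k ∈ range (Nat.log 2 x + 1), ∑ p ∈ (pb k).filter (fun p => p ≤ x),
    (sg S p - dd β p)| := abs_nonneg _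
  linarith [e2.trans e3]

lemma summable_primes {s : ℂ} (hs : 1 < s.re) (c : ℕ → ℂ) (hc : ∀ n, ‖c n‖ ≤ 1) :
    Summable fun p : Nat.Primes => c p * ((p : ℕ) : ℂ) ^ (-s) := by
  have h : Summable fun p : Nat.Primes => ((p : ℕ) : ℝ) ^ (-s.re) :=
    Nat.Primes.summable_rpow.2 (by linarith)
  refine Summable.of_norm_bounded h fun p => ?_
  rw [norm_mul, Complex.norm_natCast_cpow_of_pos p.2.pos, Complex.neg_re]
  have := hc p
  have h2 : 0 ≤ ((p : ℕ) : ℝ) ^ (-s.re) := by positivity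
  nlinarith

lemma lseries_aa (S : Set ℕ) {β : ℝ} (hβ : β < 1) {s : ℂ} (hs : 1 < s.re) :
    2 * LSeries (aa S β) s = (∑' p : Nat.Primes, (sg S p : ℂ) * ((p : ℕ) : ℂ) ^ (-s)) -
      ∑' p : Nat.Primes, ((p : ℕ) : ℂ) ^ (-(s + 1 - β)) := by
  classical
  have e1 : LSeries (aa S β) s = ∑' p : Nat.Primes, aa S β p * ((p : ℕ) : ℂ) ^ (-s) := by
    have h := tsum_subtype (setOf Nat.Prime) (fun n : ℕ => aa S β n * (n : ℂ) ^ (-s))
    unfold LSeries
    refine Eq.trans ?_ h.symm
    refine tsum_congr fun n => ?_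
    rw [Set.indicator_apply]
    by_cases hn : n.Prime
    · have : n ∈ setOf Nat.Prime := hn
      rw [if_pos this, LSeries.term_of_ne_zero hn.ne_zero, Complex.cpow_neg, div_eq_mul_inv]
    · have : n ∉ setOf Nat.Prime := hn
      rw [if_neg this]
      by_cases h0 : n = 0
      · rw [h0, LSeries.term_zero]
      · rw [LSeries.term_of_ne_zero h0]
        unfold aa
        rw [if_neg hn]
        simp
  have hsm1 := summable_primes hs (fun n => (sg S n : ℂ)) (fun n => by
    rw [Complex.norm_real, Real.norm_eq_abs]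
    exact abs_sg_le S n)
  have hs2 : 1 < (s + 1 - β).re := by
    simp only [Complex.sub_re, Complex.add_re, Complex.one_re, Complex.ofReal_re]
    linarith
  have hsm2 : Summable fun p : Nat.Primes => ((p : ℕ) : ℂ) ^ (-(s + 1 - β)) := by
    have := summable_primes hs2 (fun _ => 1) (fun n => by simp)
    simpa using this
  rw [e1, ← hsm1.tsum_sub hsm2, ← tsum_mul_left]
  refine tsum_congr fun p => ?_
  have hp : ((p : ℕ) : ℂ) ≠ 0 := by exact_mod_cast p.2.ne_zero
  unfold aa dd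
  rw [if_pos p.2, if_pos p.2]
  have e3 : ((p : ℕ) : ℂ) ^ (-(s + 1 - β)) = (((((p : ℕ) : ℝ) ^ (β - 1) : ℝ)) : ℂ) *
      ((p : ℕ) : ℂ) ^ (-s) := by
    rw [Complex.ofReal_cpow (by positivity), ← Complex.ofReal_natCast]
    rw [← Complex.cpow_add _ _ (by exact_mod_cast p.2.ne_zero)]
    congr 1
    push_cast
    ring
  rw [e3]
  push_cast
  ring

lemma lam_univ {n : ℕ} (hn : n ≠ 0) : lam Set.univ n = 1 := by
  unfold lam
  rw [if_neg hn]
  apply List.prod_eq_one
  intro x hx
  rw [List.mem_map] at hx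
  obtain ⟨p, _, rfl⟩ := hx
  unfold sg
  simp

lemma lseries_univ {s : ℂ} (hs : 1 < s.re) :
    LSeries (fun n => (lam Set.univ n : ℂ)) s = riemannZeta s := by
  rw [← LSeries_one_eq_riemannZeta hs]
  refine LSeries_congr (fun {n} hn => ?_) s
  rw [lam_univ hn]
  simp

theorem t_POLE : J_POLE := by
  intro hLG hEUL hAN S β θ hβ hβ1 hθ hdev
  rintro ⟨G, hG, hG'⟩
  obtain ⟨R, hR, hR'⟩ := hAN (aa S β) (1 / 2) (by norm_num) (by norm_num) (norm_aa S hβ1)
    (norm_sum_aa S β hdev)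
  obtain ⟨H, hH, -, hH'⟩ := hLG S
  obtain ⟨K, hK, -, hK'⟩ := hLG Set.univ
  set E : ℂ → ℂ := fun s => Complex.exp (2 * R s + H s - K (s + 1 - β)) with hE
  have hEd : DifferentiableOn ℂ E {s | 1 / 2 < s.re} := by
    refine DifferentiableOn.cexp (((hR.const_mul 2).add hH).sub ?_)
    refine hK.comp ((differentiableOn_id.add_const _).sub_const _) ?_
    intro s hs
    have h1 : 1 / 2 < s.re := hs
    show 1 / 2 < (s + 1 - β).re
    simp only [Complex.sub_re, Complex.add_re, Complex.one_re, Complex.ofReal_re]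
    linarith
  -- the formula for `Re s > 1`
  have hF : ∀ s : ℂ, 1 < s.re → LSeries (fun n => (lam S n : ℂ)) s =
      E s * riemannZeta (s + 1 - β) := by
    intro s hs
    have hs2 : 1 < (s + 1 - β).re := by
      simp only [Complex.sub_re, Complex.add_re, Complex.one_re, Complex.ofReal_re]
      linarith
    rw [(hEUL S).2 s hs, ← lseries_univ hs2, (hEUL Set.univ).2 _ hs2, hH' s hs, hK' _ hs2, hE]
    simp only
    rw [← Complex.exp_add]
    congr 1
    have h1 := lseries_aa S hβ1 hs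
    rw [← hR' s hs] at h1
    have h2 : (∑' p : Nat.Primes, (sg Set.univ p : ℂ) * ((p : ℕ) : ℂ) ^ (-(s + 1 - β))) =
        ∑' p : Nat.Primes, ((p : ℕ) : ℂ) ^ (-(s + 1 - β)) := by
      refine tsum_congr fun p => ?_
      unfold sg
      simp
    rw [h2, h1]
    ring
  -- the identity theorem
  have hU : IsOpen {s : ℂ | β < s.re} := isOpen_lt continuous_const Complex.continuous_re
  have hUc : IsPreconnected {s : ℂ | β < s.re} := (convex_halfSpace_re_gt β).isPreconnected
  have hζ : DifferentiableOn ℂ (fun s => E s * riemannZeta (s + 1 - β)) {s : ℂ | β < s.re} := by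
    refine (hEd.mono ?_).mul ?_
    · intro s hs
      have h1 : β < s.re := hs
      show 1 / 2 < s.re
      linarith
    · intro s hs
      have h1 : β < s.re := hs
      have h2 : s + 1 - β ≠ 1 := by
        intro h
        have := congrArg Complex.re h
        simp only [Complex.sub_re, Complex.add_re, Complex.one_re, Complex.ofReal_re] at this
        linarith
      have h3 : DifferentiableAt ℂ (fun s : ℂ => s + 1 - (β : ℂ)) s :=
        (differentiableAt_id.add_const _).sub_const _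
      exact ((differentiableAt_riemannZeta h2).comp s h3).differentiableWithinAt
  have hGd : DifferentiableOn ℂ G {s : ℂ | β < s.re} := hG.mono fun s hs => by
    have h1 : β < s.re := hs
    show θ < s.re
    linarith
  have hEq : Set.EqOn G (fun s => E s * riemannZeta (s + 1 - β)) {s : ℂ | β < s.re} := by
    refine AnalyticOnNhd.eqOn_of_preconnected_of_eventuallyEq (hGd.analyticOnNhd hU)
      (hζ.analyticOnNhd hU) hUc (z₀ := 2) (by
        show β < (2 : ℂ).re
        simp only [Complex.re_ofNat]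
        linarith) ?_
    have h1 : {s : ℂ | 1 < s.re} ∈ 𝓝 (2 : ℂ) :=
      (isOpen_lt continuous_const Complex.continuous_re).mem_nhds (by
        show (1 : ℝ) < (2 : ℂ).re
        simp)
    filter_upwards [h1] with s hs
    rw [hG' s hs, hF s hs]
  -- the limit
  have hc : Tendsto (fun x : ℝ => (x : ℂ)) (𝓝[>] β) (𝓝 (β : ℂ)) :=
    (Complex.continuous_ofReal.tendsto β).mono_left nhdsWithin_le_nhds
  have hGc : ContinuousAt G (β : ℂ) :=
    (hG.differentiableAt ((isOpen_lt continuous_const Complex.continuous_re).mem_nhds (by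
      show θ < (β : ℂ).re
      simpa using hθ))).continuousAt
  have hEc : ContinuousAt E (β : ℂ) :=
    (hEd.differentiableAt ((isOpen_lt continuous_const Complex.continuous_re).mem_nhds (by
      show 1 / 2 < (β : ℂ).re
      simpa using hβ))).continuousAt
  have hsub : Tendsto (fun x : ℝ => (x : ℂ) - β) (𝓝[>] β) (𝓝 0) := by
    have := hc.sub_const (β : ℂ)
    rwa [sub_self] at this
  have l1 : Tendsto (fun x : ℝ => ((x : ℂ) - β) * G x) (𝓝[>] β) (𝓝 (0 * G β)) :=
    hsub.mul (hGc.tendsto.comp hc)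
  have l2 : Tendsto (fun x : ℝ => ((x : ℂ) + 1 - β - 1) * riemannZeta ((x : ℂ) + 1 - β)) (𝓝[>] β)
      (𝓝 1) := by
    refine riemannZeta_residue_one.comp (tendsto_nhdsWithin_iff.2 ⟨?_, ?_⟩)
    · have h3 : Tendsto (fun x : ℝ => (x : ℂ) + 1 - β) (𝓝[>] β) (𝓝 ((β : ℂ) + 1 - β)) :=
        (hc.add_const 1).sub_const (β : ℂ)
      rwa [add_sub_cancel_left] at h3
    · filter_upwards [self_mem_nhdsWithin] with x hx
      have hx' : β < x := hx
      intro h
      have h4 : (x : ℂ) + 1 - β = 1 := h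
      have := congrArg Complex.re h4
      simp only [Complex.sub_re, Complex.add_re, Complex.one_re, Complex.ofReal_re] at this
      linarith
  have l3 : Tendsto (fun x : ℝ => E x * (((x : ℂ) + 1 - β - 1) * riemannZeta ((x : ℂ) + 1 - β)))
      (𝓝[>] β) (𝓝 (E β * 1)) := (hEc.tendsto.comp hc).mul l2
  have l4 : Tendsto (fun x : ℝ => ((x : ℂ) - β) * G x) (𝓝[>] β) (𝓝 (E β * 1)) := by
    refine l3.congr' ?_
    filter_upwards [self_mem_nhdsWithin] with x hx
    have hx' : β < x := hx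
    have h5 := hEq (show β < ((x : ℝ) : ℂ).re by simpa using hx')
    simp only at h5
    rw [h5]
    ring
  have h6 := tendsto_nhds_unique l1 l4
  rw [zero_mul, mul_one] at h6
  exact Complex.exp_ne_zero _ h6.symm

end Pool.Agent.Q146.FZ
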